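import Pool.Agent.Helper29.E3.St2

/-!
# Project E3, module BDG: decomposition of the bilinear sum in pieces (general bound of a piece)
-/

set_option autoImplicit false

namespace Pool.Agent.Helper6.E3

open Finset ArithmeticFunction
open Pool.Agent.Helper29.E3
open Pool.Agent.Helper49.PC
open Pool.Agent.Helper48.BK (ex th lz Vz Pz gs nd Apx AdN Sol thd)
open scoped ComplexConjugate

private noncomputable def r_BDG (α β K : ℕ → ℝ) (ι : ℕ → ℕ) (w₀ w₁ k l : ℕ) : ℝ :=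
  if (w₀ < k * l ∧ k * l ≤ w₁) ∧ ¬ ((w₀ : ℝ) < l * K (ι k) ∧ (l : ℝ) * K (ι k + 1) ≤ w₁) then
    α k * β l else 0

private noncomputable def rho_BDG (α β K : ℕ → ℝ) (ι : ℕ → ℕ) (X w₀ w₁ n : ℕ) : ℝ :=
  ∑ k ∈ (Ioc 0 X).filter (fun k => 2 ≤ k), ∑ l ∈ Ioc 0 X,
    if k * l = n then r_BDG α β K ι w₀ w₁ k l else 0

private theorem exists_iota_BDG (K : ℕ → ℝ) (J X : ℕ) (h0 : K 0 = 1) (hX : (X : ℝ) ≤ K J) :
    ∃ ι : ℕ → ℕ, ∀ k, 2 ≤ k → k ≤ X → ι k < J ∧ K (ι k) < k ∧ (k : ℝ) ≤ K (ι k + 1) := by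
  have h : ∀ k : ℕ, ∃ i, 2 ≤ k → k ≤ X → i < J ∧ K i < k ∧ (k : ℝ) ≤ K (i + 1) := by
    intro k
    by_cases hk : 2 ≤ k ∧ k ≤ X
    · have hex : ∃ j, (k : ℝ) ≤ K j := ⟨J, le_trans (by exact_mod_cast hk.2) hX⟩
      have hj := Nat.find_spec hex
      have hjJ : Nat.find hex ≤ J := Nat.find_min' hex (le_trans (by exact_mod_cast hk.2) hX)
      have hj0 : Nat.find hex ≠ 0 := by
        intro h
        rw [h, h0] at hj
        have : (2 : ℝ) ≤ k := by exact_mod_cast hk.1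
        linarith
      refine ⟨Nat.find hex - 1, fun _ _ => ⟨by omega, ?_, ?_⟩⟩
      · have := Nat.find_min hex (m := Nat.find hex - 1) (by omega)
        push Not at this
        exact this
      · rw [Nat.sub_add_cancel (Nat.pos_of_ne_zero hj0)]
        exact hj
    · exact ⟨0, fun h1 h2 => absurd ⟨h1, h2⟩ hk⟩
  choose ι hι using h
  exact ⟨ι, hι⟩

private theorem iota_iff_BDG {K : ℕ → ℝ} {J X : ℕ} {ι : ℕ → ℕ} (h0 : K 0 = 1)
    (hmono : Monotone K)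
    (hι : ∀ k, 2 ≤ k → k ≤ X → ι k < J ∧ K (ι k) < k ∧ (k : ℝ) ≤ K (ι k + 1)) (k : ℕ)
    (hk : k ≤ X) (i : ℕ) : (K i < k ∧ (k : ℝ) ≤ K (i + 1)) ↔ (2 ≤ k ∧ ι k = i) := by
  constructor
  · rintro ⟨h1, h2⟩
    have hk2 : 2 ≤ k := by
      have h3 : K 0 ≤ K i := hmono (Nat.zero_le i)
      rw [h0] at h3
      have : (1 : ℝ) < k := lt_of_le_of_lt h3 h1
      exact_mod_cast this
    refine ⟨hk2, ?_⟩
    obtain ⟨-, h4, h5⟩ := hι k hk2 hk
    rcases lt_trichotomy (ι k) i with h | h | h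
    · have := hmono (show ι k + 1 ≤ i from h)
      linarith
    · exact h
    · have := hmono (show i + 1 ≤ ι k from h)
      linarith
  · rintro ⟨h1, rfl⟩
    exact (hι k h1 hk).2

private theorem split_BDG {K : ℕ → ℝ} {J X : ℕ} {ι : ℕ → ℕ} (h0 : K 0 = 1)
    (hmono : Monotone K)
    (hι : ∀ k, 2 ≤ k → k ≤ X → ι k < J ∧ K (ι k) < k ∧ (k : ℝ) ≤ K (ι k + 1))
    (α β : ℕ → ℝ) (w₀ w₁ : ℕ) (hw : w₁ ≤ X) (hα : α 1 = 0) {q : ℕ}
    (χ : DirichletCharacter ℂ q) :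
    Bil χ α β X w₀ w₁ =
      ∑ i ∈ range J, (∑ k ∈ (Ioc 0 X).filter (fun k : ℕ => K i < (k : ℝ) ∧ (k : ℝ) ≤ K (i + 1)),
          ((α k : ℝ) : ℂ) * χ (k : ZMod q)) *
        (∑ l ∈ Ioc 0 X, if ((w₀ : ℝ) < l * K i ∧ (l : ℝ) * K (i + 1) ≤ w₁) then
          ((β l : ℝ) : ℂ) * χ (l : ZMod q) else 0) +
      ∑ n ∈ Ioc 0 X, ((rho_BDG α β K ι X w₀ w₁ n : ℝ) : ℂ) * χ (n : ZMod q) := by
  have hK1 : ∀ i, 1 ≤ K i := fun i => h0 ▸ hmono (Nat.zero_le i)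
  -- first part
  have hA : ∑ i ∈ range J,
        (∑ k ∈ (Ioc 0 X).filter (fun k : ℕ => K i < (k : ℝ) ∧ (k : ℝ) ≤ K (i + 1)),
          ((α k : ℝ) : ℂ) * χ (k : ZMod q)) *
        (∑ l ∈ Ioc 0 X, if ((w₀ : ℝ) < l * K i ∧ (l : ℝ) * K (i + 1) ≤ w₁) then
          ((β l : ℝ) : ℂ) * χ (l : ZMod q) else 0) =
      ∑ k ∈ (Ioc 0 X).filter (fun k => 2 ≤ k), ∑ l ∈ Ioc 0 X,
        if ((w₀ : ℝ) < l * K (ι k) ∧ (l : ℝ) * K (ι k + 1) ≤ w₁) then
          ((α k : ℝ) : ℂ) * χ (k : ZMod q) * (((β l : ℝ) : ℂ) * χ (l : ZMod q)) else 0 := by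
    rw [← Finset.sum_fiberwise_of_maps_to (s := (Ioc 0 X).filter (fun k => 2 ≤ k))
      (t := range J) (g := ι)]
    · refine Finset.sum_congr rfl fun i _ => ?_
      rw [Finset.filter_filter, Finset.sum_mul]
      refine Finset.sum_congr ?_ ?_
      · refine Finset.filter_congr fun k hk => ?_
        exact iota_iff_BDG h0 hmono hι k (Finset.mem_Ioc.1 hk).2 i
      · intro k hk
        obtain ⟨-, -, rfl⟩ := Finset.mem_filter.1 hk
        rw [Finset.mul_sum]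
        refine Finset.sum_congr rfl fun l _ => ?_
        split_ifs
        · rfl
        · rw [mul_zero]
    · intro k hk
      obtain ⟨hk1, hk2⟩ := Finset.mem_filter.1 hk
      exact Finset.mem_range.2 (hι k hk2 (Finset.mem_Ioc.1 hk1).2).1
  have hR : ∑ n ∈ Ioc 0 X, ((rho_BDG α β K ι X w₀ w₁ n : ℝ) : ℂ) * χ (n : ZMod q) =
      ∑ k ∈ (Ioc 0 X).filter (fun k => 2 ≤ k), ∑ l ∈ Ioc 0 X,
        ((r_BDG α β K ι w₀ w₁ k l : ℝ) : ℂ) * (χ (k : ZMod q) * χ (l : ZMod q)) := by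
    unfold rho_BDG
    have h1 : ∀ n ∈ Ioc 0 X, ((∑ k ∈ (Ioc 0 X).filter (fun k => 2 ≤ k), ∑ l ∈ Ioc 0 X,
        (if k * l = n then r_BDG α β K ι w₀ w₁ k l else 0) : ℝ) : ℂ) * χ (n : ZMod q) =
        ∑ k ∈ (Ioc 0 X).filter (fun k => 2 ≤ k), ∑ l ∈ Ioc 0 X,
        (if k * l = n then ((r_BDG α β K ι w₀ w₁ k l : ℝ) : ℂ) * χ (n : ZMod q) else 0) := by
      intro n _
      rw [Complex.ofReal_sum, Finset.sum_mul]
      refine Finset.sum_congr rfl fun k _ => ?_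
      rw [Complex.ofReal_sum, Finset.sum_mul]
      refine Finset.sum_congr rfl fun l _ => ?_
      split_ifs
      · rfl
      · simp
    rw [Finset.sum_congr rfl h1, Finset.sum_comm]
    refine Finset.sum_congr rfl fun k hk => ?_
    rw [Finset.sum_comm]
    refine Finset.sum_congr rfl fun l hl => ?_
    rw [Finset.sum_ite_eq]
    have hk0 := (Finset.mem_Ioc.1 (Finset.mem_filter.1 hk).1).1
    have hl0 := (Finset.mem_Ioc.1 hl).1
    by_cases hkl : k * l ∈ Ioc 0 X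
    · rw [if_pos hkl, Nat.cast_mul, map_mul]
    · rw [if_neg hkl]
      have : r_BDG α β K ι w₀ w₁ k l = 0 := by
        unfold r_BDG
        rw [if_neg]
        rintro ⟨⟨-, h3⟩, -⟩
        exact hkl (Finset.mem_Ioc.2 ⟨Nat.mul_pos hk0 hl0, h3.trans hw⟩)
      rw [this]
      simp
  rw [hA, hR, ← Finset.sum_add_distrib]
  unfold Bil
  rw [← Finset.sum_filter_add_sum_filter_not (Ioc 0 X) (fun k => 2 ≤ k)]
  have hz : ∑ k ∈ (Ioc 0 X).filter (fun k => ¬ 2 ≤ k), ∑ l ∈ Ioc 0 X,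
      (if w₀ < k * l ∧ k * l ≤ w₁ then
        ((α k * β l : ℝ) : ℂ) * (χ (k : ZMod q) * χ (l : ZMod q)) else 0) = 0 := by
    refine Finset.sum_eq_zero fun k hk => ?_
    obtain ⟨hk1, hk2⟩ := Finset.mem_filter.1 hk
    have hk3 : k = 1 := by
      have := (Finset.mem_Ioc.1 hk1).1
      omega
    subst hk3
    refine Finset.sum_eq_zero fun l _ => ?_
    rw [hα]
    simp
  rw [hz, add_zero]
  refine Finset.sum_congr rfl fun k hk => ?_
  obtain ⟨hk1, hk2⟩ := Finset.mem_filter.1 hk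
  obtain ⟨hi1, hi2, hi3⟩ := hι k hk2 (Finset.mem_Ioc.1 hk1).2
  rw [← Finset.sum_add_distrib]
  refine Finset.sum_congr rfl fun l hl => ?_
  have hl0 : (0 : ℝ) < l := by exact_mod_cast (Finset.mem_Ioc.1 hl).1
  unfold r_BDG
  by_cases hc : (w₀ : ℝ) < l * K (ι k) ∧ (l : ℝ) * K (ι k + 1) ≤ w₁
  · have h1 : w₀ < k * l ∧ k * l ≤ w₁ := by
      constructor
      · have : (w₀ : ℝ) < k * l := by nlinarith [hc.1]
        exact_mod_cast this
      · have : (k : ℝ) * l ≤ w₁ := by nlinarith [hc.2]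
        exact_mod_cast this
    rw [if_pos h1, if_pos hc, if_neg (fun h => h.2 hc)]
    push_cast
    ring
  · rw [if_neg hc]
    by_cases h1 : w₀ < k * l ∧ k * l ≤ w₁
    · rw [if_pos h1, if_pos ⟨h1, hc⟩, zero_add]
    · rw [if_neg h1, if_neg (fun h => h1 h.1)]
      simp

private theorem rho_le_BDG (α β K : ℕ → ℝ) (ι : ℕ → ℕ) (X w₀ w₁ n : ℕ) (T : ℝ)
    (hα : ∀ n, |α n| ≤ T * (n.divisors.card : ℝ)) (hβ : ∀ n, |β n| ≤ T * (n.divisors.card : ℝ))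
    (hT : 0 ≤ T) :
    |rho_BDG α β K ι X w₀ w₁ n| ≤ T ^ 2 * (n.divisors.card : ℝ) ^ 3 := by
  unfold rho_BDG
  rw [← Finset.sum_product', ← Finset.sum_filter]
  refine (Finset.abs_sum_le_sum_abs _ _).trans ?_
  have hb : ∀ p ∈ ((((Ioc 0 X).filter (fun k => 2 ≤ k)) ×ˢ (Ioc 0 X)).filter
      (fun p : ℕ × ℕ => p.1 * p.2 = n)),
      |r_BDG α β K ι w₀ w₁ p.1 p.2| ≤ T ^ 2 * (n.divisors.card : ℝ) ^ 2 := by
    intro p hp
    obtain ⟨hp1, hp2⟩ := Finset.mem_filter.1 hp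
    obtain ⟨hp3, hp4⟩ := Finset.mem_product.1 hp1
    have hk0 := (Finset.mem_Ioc.1 (Finset.mem_filter.1 hp3).1).1
    have hl0 := (Finset.mem_Ioc.1 hp4).1
    have hn0 : n ≠ 0 := by
      rw [← hp2]
      exact (Nat.mul_pos hk0 hl0).ne'
    have hd1 : (p.1.divisors.card : ℝ) ≤ n.divisors.card := by
      exact_mod_cast Finset.card_le_card (Nat.divisors_subset_of_dvd hn0 ⟨p.2, hp2.symm⟩)
    have hd2 : (p.2.divisors.card : ℝ) ≤ n.divisors.card := by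
      exact_mod_cast Finset.card_le_card (Nat.divisors_subset_of_dvd hn0
        ⟨p.1, by rw [mul_comm]; exact hp2.symm⟩)
    unfold r_BDG
    split_ifs
    · rw [abs_mul]
      have h1 : |α p.1| ≤ T * (n.divisors.card : ℝ) :=
        (hα p.1).trans (mul_le_mul_of_nonneg_left hd1 hT)
      have h2 : |β p.2| ≤ T * (n.divisors.card : ℝ) :=
        (hβ p.2).trans (mul_le_mul_of_nonneg_left hd2 hT)
      calc |α p.1| * |β p.2| ≤ (T * (n.divisors.card : ℝ)) * (T * (n.divisors.card : ℝ)) :=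
            mul_le_mul h1 h2 (abs_nonneg _) (by positivity)
        _ = _ := by ring
    · rw [abs_zero]
      positivity
  refine (Finset.sum_le_sum hb).trans ?_
  rw [Finset.sum_const, nsmul_eq_mul]
  have hcard : ((((Ioc 0 X).filter (fun k => 2 ≤ k)) ×ˢ (Ioc 0 X)).filter
      (fun p : ℕ × ℕ => p.1 * p.2 = n)).card ≤ n.divisors.card := by
    refine Finset.card_le_card_of_injOn (fun p => p.1) ?_ ?_
    · intro p hp
      obtain ⟨hp1, hp2⟩ := Finset.mem_filter.1 hp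
      obtain ⟨hp3, hp4⟩ := Finset.mem_product.1 hp1
      have hk0 := (Finset.mem_Ioc.1 (Finset.mem_filter.1 hp3).1).1
      have hl0 := (Finset.mem_Ioc.1 hp4).1
      refine Nat.mem_divisors.2 ⟨⟨p.2, hp2.symm⟩, ?_⟩
      rw [← hp2]
      exact (Nat.mul_pos hk0 hl0).ne'
    · intro p hp p' hp' h
      obtain ⟨hp1, hp2⟩ := Finset.mem_filter.1 (Finset.mem_coe.1 hp)
      obtain ⟨hp3, hp4⟩ := Finset.mem_product.1 hp1
      obtain ⟨-, hp2'⟩ := Finset.mem_filter.1 (Finset.mem_coe.1 hp')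
      have hk0 := (Finset.mem_Ioc.1 (Finset.mem_filter.1 hp3).1).1
      have h' : p.1 = p'.1 := h
      refine Prod.ext h' ?_
      refine Nat.eq_of_mul_eq_mul_left hk0 ?_
      rw [hp2, h', hp2']
  have hcard' : ((((((Ioc 0 X).filter (fun k => 2 ≤ k)) ×ˢ (Ioc 0 X)).filter
      (fun p : ℕ × ℕ => p.1 * p.2 = n)).card : ℕ) : ℝ) ≤ n.divisors.card := by
    exact_mod_cast hcard
  calc _ ≤ (n.divisors.card : ℝ) * (T ^ 2 * (n.divisors.card : ℝ) ^ 2) :=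
        mul_le_mul_of_nonneg_right hcard' (by positivity)
    _ = _ := by ring

private theorem rho_supp_BDG {K : ℕ → ℝ} {J X : ℕ} {ι : ℕ → ℕ} {δ : ℝ} (hδ : 0 < δ)
    (hK : ∀ i, K (i + 1) = (1 + δ) * K i)
    (hι : ∀ k, 2 ≤ k → k ≤ X → ι k < J ∧ K (ι k) < k ∧ (k : ℝ) ≤ K (ι k + 1))
    (α β : ℕ → ℝ) (w₀ w₁ n : ℕ) (hn : rho_BDG α β K ι X w₀ w₁ n ≠ 0) :
    ((w₀ : ℝ) < n ∧ (n : ℝ) ≤ (1 + δ) * w₀) ∨ ((w₁ : ℝ) < (1 + δ) * n ∧ n ≤ w₁) := by
  unfold rho_BDG at hn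
  obtain ⟨k, hk, hn⟩ := Finset.exists_ne_zero_of_sum_ne_zero hn
  obtain ⟨l, hl, hn⟩ := Finset.exists_ne_zero_of_sum_ne_zero hn
  obtain ⟨hk1, hk2⟩ := Finset.mem_filter.1 hk
  obtain ⟨-, hi2, hi3⟩ := hι k hk2 (Finset.mem_Ioc.1 hk1).2
  have hl0 : (0 : ℝ) < l := by exact_mod_cast (Finset.mem_Ioc.1 hl).1
  split_ifs at hn with hkl
  · unfold r_BDG at hn
    split_ifs at hn with hc
    · obtain ⟨⟨h1, h2⟩, h3⟩ := hc
      rw [hkl] at h1 h2
      have hkl' : (k : ℝ) * l = n := by exact_mod_cast hkl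
      rw [hK] at hi3 h3
      by_cases h4 : (w₀ : ℝ) < l * K (ι k)
      · right
        have h5 : ¬ (l : ℝ) * ((1 + δ) * K (ι k)) ≤ w₁ := fun h => h3 ⟨h4, h⟩
        push Not at h5
        refine ⟨?_, h2⟩
        rw [← hkl']
        have h6 : (l : ℝ) * ((1 + δ) * K (ι k)) ≤ (1 + δ) * (k * l) := by
          have : (1 + δ) * l * K (ι k) ≤ (1 + δ) * l * k := by gcongr
          nlinarith
        linarith
      · left
        push Not at h4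
        refine ⟨by exact_mod_cast h1, ?_⟩
        rw [← hkl']
        calc (k : ℝ) * l ≤ ((1 + δ) * K (ι k)) * l := by gcongr
          _ = (1 + δ) * (l * K (ι k)) := by ring
          _ ≤ (1 + δ) * w₀ := by gcongr
    · exact absurd rfl hn
  · exact absurd rfl hn

theorem hBDG (h2 : StLEF) : StBDG := by
  intro q _ X w₀ w₁ α β T δ Y P 𝓖 S hX hT hα hβ hα1 hδ hδ1 hw hwX hS hSY hP0 hP
  have hX1 : (1 : ℝ) ≤ X := by exact_mod_cast (by omega : 1 ≤ X)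
  have hlog0 : 0 ≤ Real.log X := Real.log_nonneg hX1
  set K : ℕ → ℝ := fun i => (1 + δ) ^ i with hKdef
  have h0 : K 0 = 1 := by simp [hKdef]
  have hKs : ∀ i, K (i + 1) = (1 + δ) * K i := by
    intro i
    simp only [hKdef]
    ring
  have hmono : Monotone K := by
    intro i j hij
    exact pow_le_pow_right₀ (by linarith) hij
  have hK1 : ∀ i, 1 ≤ K i := fun i => h0 ▸ hmono (Nat.zero_le i)
  set J : ℕ := ⌈2 * Real.log X / δ⌉₊ with hJ
  have hJ1 : (X : ℝ) ≤ K J := by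
    have hl1 : δ / 2 ≤ Real.log (1 + δ) := by
      refine le_trans ?_ (Real.one_sub_inv_le_log_of_pos (by linarith))
      rw [div_le_iff₀ (by norm_num : (0 : ℝ) < 2)]
      have : (1 + δ)⁻¹ ≤ 1 - δ / 2 := by
        rw [inv_le_comm₀ (by linarith) (by linarith)]
        rw [inv_eq_one_div, div_le_iff₀ (by linarith)]
        nlinarith
      linarith
    have hl2 : 2 * Real.log X / δ ≤ J := Nat.le_ceil _
    rw [div_le_iff₀ hδ] at hl2
    have hJ0 : (0 : ℝ) ≤ J := Nat.cast_nonneg _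
    have hl3 : Real.log X ≤ J * Real.log (1 + δ) := by nlinarith
    calc (X : ℝ) = Real.exp (Real.log X) := (Real.exp_log (by linarith)).symm
      _ ≤ Real.exp (J * Real.log (1 + δ)) := Real.exp_le_exp.2 hl3
      _ = K J := by rw [Real.exp_nat_mul, Real.exp_log (by linarith)]
  have hJ2 : (J : ℝ) ≤ 2 * (1 + Real.log X) / δ := by
    have h3 : (J : ℝ) < 2 * Real.log X / δ + 1 := Nat.ceil_lt_add_one (by positivity)
    rw [le_div_iff₀ hδ]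
    have h4 : (2 * Real.log X / δ + 1) * δ = 2 * Real.log X + δ := by field_simp
    nlinarith
  obtain ⟨ι, hι⟩ := exists_iota_BDG K J X h0 hJ1
  set A : ℕ → DirichletCharacter ℂ q → ℂ := fun i χ =>
    ∑ k ∈ (Ioc 0 X).filter (fun k : ℕ => K i < (k : ℝ) ∧ (k : ℝ) ≤ K (i + 1)),
      ((α k : ℝ) : ℂ) * χ (k : ZMod q) with hA
  set B : ℕ → DirichletCharacter ℂ q → ℂ := fun i χ =>
    ∑ l ∈ Ioc 0 X, if ((w₀ : ℝ) < l * K i ∧ (l : ℝ) * K (i + 1) ≤ w₁) then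
      ((β l : ℝ) : ℂ) * χ (l : ZMod q) else 0 with hB
  set R : DirichletCharacter ℂ q → ℂ := fun χ =>
    ∑ n ∈ Ioc 0 X, ((rho_BDG α β K ι X w₀ w₁ n : ℝ) : ℂ) * χ (n : ZMod q) with hR
  have hsplit : ∀ χ : DirichletCharacter ℂ q, ‖Bil χ α β X w₀ w₁‖ ≤
      ∑ i ∈ range J, ‖A i χ‖ * ‖B i χ‖ + ‖R χ‖ := by
    intro χ
    rw [split_BDG h0 hmono hι α β w₀ w₁ hwX hα1 χ]
    refine (norm_add_le _ _).trans (add_le_add ?_ le_rfl)
    refine (norm_sum_le _ _).trans (le_of_eq ?_)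
    exact Finset.sum_congr rfl fun i _ => norm_mul _ _
  -- the pieces
  have hpiece : ∀ i, ∑ χ ∈ 𝓖, S χ * (‖A i χ‖ * ‖B i χ‖) ≤ P := by
    intro i
    have hKi : 0 < K i := lt_of_lt_of_le one_pos (hK1 i)
    have hKi' : 0 < K (i + 1) := lt_of_lt_of_le one_pos (hK1 (i + 1))
    have hp := hP (K i) (K (i + 1)) (w₀ / K i) (w₁ / K (i + 1)) (hK1 i)
      (hmono (Nat.le_succ i)) (by rw [hKs]; nlinarith [hK1 i])
      (by rw [div_mul_cancel₀ _ hKi'.ne']; exact_mod_cast hwX)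
    refine le_trans (le_of_eq ?_) hp
    refine Finset.sum_congr rfl fun χ _ => ?_
    have hBeq : B i χ = ∑ l ∈ (Ioc 0 X).filter (fun l : ℕ => w₀ / K i < (l : ℝ) ∧
        (l : ℝ) ≤ w₁ / K (i + 1)), ((β l : ℝ) : ℂ) * χ (l : ZMod q) := by
      simp only [hB]
      rw [Finset.sum_filter]
      refine Finset.sum_congr rfl fun l _ => ?_
      have hiff : w₀ / K i < (l : ℝ) ↔ (w₀ : ℝ) < l * K i := div_lt_iff₀ hKi
      have hiff' : (l : ℝ) ≤ w₁ / K (i + 1) ↔ (l : ℝ) * K (i + 1) ≤ w₁ := le_div_iff₀ hKi'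
      exact if_congr (and_congr hiff.symm hiff'.symm) rfl rfl
    rw [hBeq]
  have hrest : ∑ χ ∈ 𝓖, S χ * ‖R χ‖ ≤
      √Y * √(2 * (δ * X + q + q) * T ^ 4 * X * (1 + Real.log X) ^ 63) := by
    have hl := h2 q X w₀ w₁ (fun n => ((rho_BDG α β K ι X w₀ w₁ n : ℝ) : ℂ)) T δ hT hδ
      (hw.trans hwX) hwX
      (fun n => by
        rw [Complex.norm_real, Real.norm_eq_abs]
        exact rho_le_BDG α β K ι X w₀ w₁ n T hα hβ hT)
      (fun n hn => rho_supp_BDG hδ hKs hι α β w₀ w₁ n (fun h => hn (by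
        show ((rho_BDG α β K ι X w₀ w₁ n : ℝ) : ℂ) = 0
        rw [h]
        simp)))
    have hR2 : ∑ χ ∈ 𝓖, ‖R χ‖ ^ 2 ≤ 2 * (δ * X + q + q) * T ^ 4 * X * (1 + Real.log X) ^ 63 :=
      (Finset.sum_le_sum_of_subset_of_nonneg (Finset.subset_univ 𝓖)
        fun _ _ _ => sq_nonneg _).trans hl
    calc ∑ χ ∈ 𝓖, S χ * ‖R χ‖ ≤ √(∑ χ ∈ 𝓖, S χ ^ 2) * √(∑ χ ∈ 𝓖, ‖R χ‖ ^ 2) :=
          Real.sum_mul_le_sqrt_mul_sqrt _ _ _
      _ ≤ _ := mul_le_mul (Real.sqrt_le_sqrt hSY) (Real.sqrt_le_sqrt hR2)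
          (Real.sqrt_nonneg _) (Real.sqrt_nonneg _)
  calc ∑ χ ∈ 𝓖, S χ * ‖Bil χ α β X w₀ w₁‖
      ≤ ∑ χ ∈ 𝓖, S χ * (∑ i ∈ range J, ‖A i χ‖ * ‖B i χ‖ + ‖R χ‖) :=
        Finset.sum_le_sum fun χ hχ => mul_le_mul_of_nonneg_left (hsplit χ) (hS χ hχ)
    _ = ∑ i ∈ range J, ∑ χ ∈ 𝓖, S χ * (‖A i χ‖ * ‖B i χ‖) + ∑ χ ∈ 𝓖, S χ * ‖R χ‖ := by
        rw [Finset.sum_comm, ← Finset.sum_add_distrib]
        refine Finset.sum_congr rfl fun χ _ => ?_
        rw [mul_add, Finset.mul_sum]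
    _ ≤ ∑ i ∈ range J, P +
        √Y * √(2 * (δ * X + q + q) * T ^ 4 * X * (1 + Real.log X) ^ 63) :=
        add_le_add (Finset.sum_le_sum fun i _ => hpiece i) hrest
    _ ≤ _ := by
        refine add_le_add ?_ le_rfl
        rw [Finset.sum_const, Finset.card_range, nsmul_eq_mul]
        exact mul_le_mul_of_nonneg_right hJ2 hP0

end Pool.Agent.Helper6.E3
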